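import Mathlib
import Pool.Agent.D0H29.PA.Exist

/-!
# Triangle counts in instantaneous preferential attachment: normal approximation with rate

For every `m ≥ 2` and `δ > 0` the Wasserstein distance between the normalised number of triangles
`(T_n - E T_n) / √(Var T_n)` and the standard normal law is at most `C / √(log n)` for all large `n`,
with `C` depending only on `m` and `δ`.

The vertices are numbered from `0`: the graph `G_n` has the vertices `0, …, n - 1`, and the vertex `k`
is joined to the vertices `E k ℓ < k`, `ℓ` in `Fin m`.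

Proof.
1. Given `G_n` the number `D` of new triangles has mean `(m (m - 1) / 2) S / L ^ 2`, where `S` is the sum
   of `M_uv x_u x_v` over the ordered pairs (`x_v` degree plus `δ`, `L` their sum). Moments of the
   statistics `∑ x ^ 2`, `∑ x ^ 3`, `∑ M x_u ^ 2 x_v ^ 2`, `∑ M (M - 1) x_u x_v` show that
   `E |S - E S| = O(n ^ (1 - η))` and `E D (D - 1) = O(n ^ (- 1 - η))` for some `η > 0`.
2. So the increments can be exchanged by independent Poisson variables of the same means, one after the
   other, at a total cost of `O(1)` for 1-Lipschitz functions of `T_n`: the Wasserstein distance between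
   `T_n` and the Poisson law of mean `E T_n` is bounded. In the same way `Var T_n = E T_n + O(1)`.
3. `E T_n ≥ c log n`, and the normalised Poisson law of mean `q` is at distance at most `2 / √q` from the
   normal law (Stein's method).
-/

set_option autoImplicit false

namespace Pool.Agent.Results.MP_751612_pr.WassersteinRate

open MeasureTheory ProbabilityTheory Finset
open scoped ENNReal

/-- The number of edges which join `u` and `v`, if the `ℓ`-th edge of the vertex `k` joins it to the
vertex `e k ℓ` (vertices `0, 1, 2, …`). -/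
def multiplicity {m : ℕ} (e : ℕ → Fin m → ℕ) (u v : ℕ) : ℕ :=
  if u = v then 0 else (univ.filter (fun ℓ => e (max u v) ℓ = min u v)).card

/-- The degree of `v` in the multigraph on the vertices `0, …, n - 1`. -/
def degree {m : ℕ} (e : ℕ → Fin m → ℕ) (n v : ℕ) : ℕ := ∑ u ∈ range n, multiplicity e u v

/-- The number of triangles, counted with multiplicity, of the multigraph on `0, …, n - 1`. -/
def triangles {m : ℕ} (e : ℕ → Fin m → ℕ) (n : ℕ) : ℕ :=
  ∑ c ∈ range n, ∑ b ∈ range c, ∑ a ∈ range b, multiplicity e a b * multiplicity e b c * multiplicity e a c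

/-- The random endpoints `E k ℓ` (`ℓ`-th edge of the vertex `k`) are those of instantaneous linear
preferential attachment, up to the graph on the vertices `0, …, n - 1`: the vertex `1` is joined to the
vertex `0` by `m` edges, and given the edges of the vertices before `k` (`2 ≤ k < n`) the endpoints of the
`m` edges of `k` are independent and equal to `v < k` with probability
`(degree v + δ) / (2 m (k - 1) + k δ)`, with the degree of `v` in the graph on `0, …, k - 1`. -/
structure IsModel {Ω : Type*} [MeasurableSpace Ω] (P : Measure Ω) (m : ℕ) (δ : ℝ) (n : ℕ)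
    (E : ℕ → Fin m → Ω → ℕ) : Prop where
  measurable : ∀ k ℓ, Measurable (E k ℓ)
  start : ∀ᵐ ω ∂P, ∀ ℓ, E 1 ℓ ω = 0
  step : ∀ k, 2 ≤ k → k < n → ∀ (h : ℕ → Fin m → ℕ) (f : Fin m → ℕ), (∀ ℓ, f ℓ < k) →
    P {ω | (∀ j, 1 ≤ j → j < k → ∀ ℓ, E j ℓ ω = h j ℓ) ∧ ∀ ℓ, E k ℓ ω = f ℓ} =
      P {ω | ∀ j, 1 ≤ j → j < k → ∀ ℓ, E j ℓ ω = h j ℓ} *
        ∏ ℓ, ENNReal.ofReal (((degree h k (f ℓ) : ℝ) + δ) / (2 * m * ((k : ℝ) - 1) + k * δ))

/-- The Wasserstein distance: the supremum of `|∫ h dμ - ∫ h dν|` over the 1-Lipschitz functions `h`. -/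
noncomputable def wasserstein (μ ν : Measure ℝ) : ℝ≥0∞ :=
  ⨆ (h : ℝ → ℝ) (_ : LipschitzWith 1 h), ENNReal.ofReal |∫ x, h x ∂μ - ∫ x, h x ∂ν|

/-- The number of triangles of the random graph on the vertices `0, …, n - 1`. -/
def T {Ω : Type*} {m : ℕ} (E : ℕ → Fin m → Ω → ℕ) (n : ℕ) (ω : Ω) : ℝ :=
  triangles (fun k ℓ => E k ℓ ω) n

/-- The model exists (this is not used in `result`). -/
theorem exists_model (m : ℕ) (δ : ℝ) (hδ : 0 < δ) (n : ℕ) (hn : 2 ≤ n) :
    ∃ (Ω : Type) (_ : MeasurableSpace Ω) (P : Measure Ω) (E : ℕ → Fin m → Ω → ℕ),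
      IsProbabilityMeasure P ∧ IsModel P m δ n E := by
  refine ⟨ℕ → Fin m → ℕ, ⊤, Pool.Agent.D0H29.PA.law m δ n, fun k ℓ e => e k ℓ, ?_, ?_⟩
  · exact @IsProbabilityMeasure.mk _ ⊤ _ (Pool.Agent.D0H29.PA.law_prob hδ hn)
  · let _ : MeasurableSpace (ℕ → Fin m → ℕ) := ⊤
    refine ⟨fun k ℓ => measurable_from_top, ?_, fun k hk hkn h f hf => ?_⟩
    · rw [ae_iff]; exact Pool.Agent.D0H29.PA.law_start hδ hn
    · exact Pool.Agent.D0H29.PA.law_step hδ hk hkn h f hf

theorem tri_dep {m : ℕ} {n : ℕ} (e e' : ℕ → Fin m → ℕ) (h : ∀ j, 1 ≤ j → j < n → e j = e' j) :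
    triangles e n = triangles e' n := by
  unfold triangles
  have hm : ∀ u v, u < v → v < n → multiplicity e u v = multiplicity e' u v := by
    intro u v huv hvn
    unfold multiplicity
    rw [if_neg (by omega), if_neg (by omega), max_eq_right huv.le, h v (by omega) hvn]
  refine sum_congr rfl fun c hc => sum_congr rfl fun b hb => sum_congr rfl fun a ha => ?_
  rw [mem_range] at hc hb ha
  rw [hm a b ha (by omega), hm b c hb hc, hm a c (by omega) hc]

theorem result (m : ℕ) (hm : 2 ≤ m) (δ : ℝ) (hδ : 0 < δ) :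
    ∃ (C : ℝ) (N : ℕ), ∀ n : ℕ, N ≤ n → ∀ (Ω : Type*) [MeasurableSpace Ω] (P : Measure Ω)
      [IsProbabilityMeasure P] (E : ℕ → Fin m → Ω → ℕ), IsModel P m δ n E →
      wasserstein (P.map (fun ω => (T E n ω - ∫ ω, T E n ω ∂P) / √(variance (T E n) P)))
        (gaussianReal 0 1) ≤ ENNReal.ofReal (C / √(Real.log n)) := by
  obtain ⟨C, N, hN3, hN⟩ := Pool.Agent.D0H29.PA.final_op hδ hm
  refine ⟨C, N, fun n hn Ω _ P _ E hE => ?_⟩
  have hn2 : 2 ≤ n := by omega
  have br := fun (F : (ℕ → Fin m → ℕ) → ℝ) hF =>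
    Pool.Agent.D0H29.PA.bridge (m := m) (δ := δ) (P := P) (E := E) hδ (N := n) hE.start hE.step
      hE.measurable hn2 le_rfl (F := F) hF
  have hT := br (fun e => (triangles e n : ℝ)) (fun e e' h => by rw [tri_dep e e' h])
  have hmean : ∫ ω, T E n ω ∂P = Pool.Agent.D0H29.PA.lam m δ n := by
    rw [← Pool.Agent.D0H29.PA.mean_tri hδ (by omega) hn2]
    exact hT.2
  have hTm : AEMeasurable (T E n) P := hT.1
  have hvar : variance (T E n) P = Pool.Agent.D0H29.PA.VT m δ n := by
    rw [variance_eq_integral hTm, hmean]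
    exact (br (fun e => ((triangles e n : ℝ) - Pool.Agent.D0H29.PA.lam m δ n) ^ 2)
      (fun e e' h => by rw [tri_dep e e' h])).2
  rw [hmean, hvar]
  unfold wasserstein
  refine iSup₂_le fun h hh => ENNReal.ofReal_le_ofReal ?_
  have hL : ∀ x y, |h x - h y| ≤ |x - y| := by
    intro x y
    have := hh.dist_le_mul x y
    simpa [Real.dist_eq] using this
  have hYm : AEMeasurable (fun ω => (T E n ω - Pool.Agent.D0H29.PA.lam m δ n) /
      √(Pool.Agent.D0H29.PA.VT m δ n)) P := (hTm.sub_const _).div_const _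
  rw [integral_map hYm hh.continuous.aestronglyMeasurable]
  have := (br (fun e => h (((triangles e n : ℝ) - Pool.Agent.D0H29.PA.lam m δ n) /
      √(Pool.Agent.D0H29.PA.VT m δ n))) (fun e e' h => by rw [tri_dep e e' h])).2
  have e2 : ∫ ω, h ((T E n ω - Pool.Agent.D0H29.PA.lam m δ n) / √(Pool.Agent.D0H29.PA.VT m δ n)) ∂P =
      Pool.Agent.D0H29.PA.Ex m δ n (fun e => h (((Pool.Agent.D0H29.PA.tri e n : ℝ) -
        Pool.Agent.D0H29.PA.lam m δ n) / √(Pool.Agent.D0H29.PA.VT m δ n))) := this
  rw [e2]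
  exact hN n hn h hL

end Pool.Agent.Results.MP_751612_pr.WassersteinRate
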